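import Pool.Agent.helper90.DH.SpecI

/-! # d2:iWDB (MP_5823cb): bounds of the digit shift with three derivatives. -/

set_option autoImplicit false

open Filter Topology MeasureTheory
open scoped commutatorElement

namespace Pool.Agent.helper90.DH

open Pool.Agent.helper64.D2

theorem WDB_near (y : ℝ) (l : ℕ) (h : y - l ∈ Set.Ioo (-1 : ℝ) 2) : |(l : ℤ) - ⌊y⌋| ≤ 1 := by
  obtain ⟨h1, h2⟩ := h
  have h3 := Int.floor_le y
  have h4 := Int.lt_floor_add_one y
  have h5 : (l : ℤ) < ⌊y⌋ + 2 := by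
    have : ((l : ℤ) : ℝ) < ((⌊y⌋ + 2 : ℤ) : ℝ) := by
      push_cast
      linarith
    exact_mod_cast this
  have h6 : ⌊y⌋ < (l : ℤ) + 2 := by
    have : ((⌊y⌋ : ℤ) : ℝ) < (((l : ℤ) + 2 : ℤ) : ℝ) := by
      push_cast
      linarith
    exact_mod_cast this
  rw [abs_le]
  constructor <;> omega

theorem WDB_sum (g : ℝ → ℝ) (B : ℝ) (hg : ∀ x, x ∉ Set.Ioo (-1 : ℝ) 2 → g x = 0) (hB : ∀ x, |g x| ≤ B) (c : ℕ → ℝ)
    (hc : ∀ l, |c l| ≤ 1) (y : ℝ) (s : Finset ℕ) : |∑ l ∈ s, c l * g (y - l)| ≤ 3 * B := by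
  classical
  have hB0 : 0 ≤ B := (abs_nonneg _).trans (hB 0)
  have h1 : ∑ l ∈ s, c l * g (y - l) = ∑ l ∈ s.filter (fun l : ℕ => |(l : ℤ) - ⌊y⌋| ≤ 1), c l * g (y - l) := by
    symm
    refine Finset.sum_filter_of_ne fun l _ hne => ?_
    refine WDB_near y l ?_
    by_contra hcon
    exact hne (by rw [hg _ hcon, mul_zero])
  have h2 : (s.filter (fun l : ℕ => |(l : ℤ) - ⌊y⌋| ≤ 1)).card ≤ 3 := by
    have h3 : (Finset.Icc (⌊y⌋ - 1) (⌊y⌋ + 1)).card = 3 := by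
      rw [Int.card_Icc]
      omega
    rw [← h3]
    refine Finset.card_le_card_of_injOn (fun l : ℕ => (l : ℤ)) ?_ ?_
    · intro l hl
      have := (Finset.mem_filter.1 hl).2
      rw [abs_le] at this
      simp only [Finset.coe_Icc, Set.mem_Icc]
      constructor <;> omega
    · intro a _ b _ hab
      exact Int.ofNat_inj.1 hab
  rw [h1]
  calc |∑ l ∈ s.filter (fun l : ℕ => |(l : ℤ) - ⌊y⌋| ≤ 1), c l * g (y - l)|
      ≤ ∑ l ∈ s.filter (fun l : ℕ => |(l : ℤ) - ⌊y⌋| ≤ 1), |c l * g (y - l)| := Finset.abs_sum_le_sum_abs _ _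
    _ ≤ ∑ l ∈ s.filter (fun l : ℕ => |(l : ℤ) - ⌊y⌋| ≤ 1), B := by
        refine Finset.sum_le_sum fun l _ => ?_
        rw [abs_mul]
        calc |c l| * |g (y - l)| ≤ 1 * B := mul_le_mul (hc l) (hB _) (abs_nonneg _) zero_le_one
          _ = B := one_mul B
    _ = ((s.filter (fun l : ℕ => |(l : ℤ) - ⌊y⌋| ≤ 1)).card : ℝ) * B := by rw [Finset.sum_const, nsmul_eq_mul]
    _ ≤ 3 * B := by
        refine mul_le_mul_of_nonneg_right ?_ hB0
        exact_mod_cast h2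

theorem WDB_dz (g : ℝ → ℝ) (hd : Differentiable ℝ g) (hg : ∀ x, x ∉ Set.Ioo (-1 : ℝ) 2 → g x = 0) : ∀ x, x ∉ Set.Ioo (-1 : ℝ) 2 → deriv g x = 0 := by
  intro x hx
  rw [Set.mem_Ioo, not_and_or, not_lt, not_lt] at hx
  rcases hx with hx | hx
  · have h1 : HasDerivWithinAt g (deriv g x) (Set.Iic x) x := (hd x).hasDerivAt.hasDerivWithinAt
    have h2 : HasDerivWithinAt g 0 (Set.Iic x) x := by
      refine (hasDerivWithinAt_const x (Set.Iic x) (0 : ℝ)).congr ?_ ?_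
      · intro y hy
        exact hg y (fun h => by have := h.1; have := Set.mem_Iic.1 hy; linarith)
      · exact hg x (fun h => by have := h.1; linarith)
    exact (uniqueDiffOn_Iic x x Set.self_mem_Iic).eq_deriv _ h1 h2
  · have h1 : HasDerivWithinAt g (deriv g x) (Set.Ici x) x := (hd x).hasDerivAt.hasDerivWithinAt
    have h2 : HasDerivWithinAt g 0 (Set.Ici x) x := by
      refine (hasDerivWithinAt_const x (Set.Ici x) (0 : ℝ)).congr ?_ ?_
      · intro y hy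
        exact hg y (fun h => by have := h.2; have := Set.mem_Ici.1 hy; linarith)
      · exact hg x (fun h => by have := h.2; linarith)
    exact (uniqueDiffOn_Ici x x Set.self_mem_Ici).eq_deriv _ h1 h2

theorem WDB_bd (g : ℝ → ℝ) (hc : Continuous g) (hg : ∀ x, x ∉ Set.Ioo (-1 : ℝ) 2 → g x = 0) : ∃ B : ℝ, 0 ≤ B ∧ ∀ x, |g x| ≤ B := by
  obtain ⟨B, hB⟩ := (isCompact_Icc : IsCompact (Set.Icc (-1 : ℝ) 2)).exists_bound_of_continuousOn hc.continuousOn
  have hB0 : 0 ≤ B := (norm_nonneg _).trans (hB 0 ⟨by norm_num, by norm_num⟩)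
  refine ⟨B, hB0, ?_⟩
  intro x
  by_cases hx : x ∈ Set.Icc (-1 : ℝ) 2
  · exact hB x hx
  · rw [hg x fun h => hx (Set.Ioo_subset_Icc_self h), abs_zero]
    exact hB0

/-- the sum with a general profile -/
noncomputable def WDB_S (g : ℝ → ℝ) (u N : ℕ) (ω : ℕ → ℕ) (x : ℝ) : ℝ :=
  ∑ l ∈ Finset.Ico (2 ^ (u - 3) + 2) (7 * 2 ^ (u - 3) - 2), ((ω l : ℝ) / N) * g (2 ^ u * x - l)

theorem WDB_der (g : ℝ → ℝ) (hd : Differentiable ℝ g) (u N : ℕ) (a : ℝ) (ω : ℕ → ℕ) :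
    deriv (fun x => a * WDB_S g u N ω x) = fun x => a * 2 ^ u * WDB_S (deriv g) u N ω x := by
  funext x
  have hder : HasDerivAt (fun x => a * WDB_S g u N ω x) (a * ∑ l ∈ Finset.Ico (2 ^ (u - 3) + 2) (7 * 2 ^ (u - 3) - 2),
      ((ω l : ℝ) / N) * (deriv g (2 ^ u * x - l) * 2 ^ u)) x := by
    unfold WDB_S
    refine HasDerivAt.const_mul a ?_
    refine HasDerivAt.fun_sum fun l _ => ?_
    refine HasDerivAt.const_mul _ ?_
    have h5 : HasDerivAt (fun x : ℝ => 2 ^ u * x - (l : ℝ)) (2 ^ u) x := by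
      have := ((hasDerivAt_id x).const_mul ((2 : ℝ) ^ u)).sub_const (l : ℝ)
      simpa using this
    exact HasDerivAt.comp x (hd _).hasDerivAt h5
  rw [hder.deriv]
  unfold WDB_S
  rw [Finset.mul_sum, Finset.mul_sum]
  refine Finset.sum_congr rfl fun l _ => ?_
  ring

theorem WDB : WDB_stmt := by
  intro β hβ
  obtain ⟨h1, h2, h3, h4⟩ := hβ
  have hd0 : Differentiable ℝ β := h1.differentiable (by norm_num)
  have h1' : ContDiff ℝ 2 (deriv β) := by
    have : ContDiff ℝ (2 + 1) β := h1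
    exact (contDiff_succ_iff_deriv.1 this).2.2
  have hd1 : Differentiable ℝ (deriv β) := h1'.differentiable (by norm_num)
  have h1'' : ContDiff ℝ 1 (deriv (deriv β)) := by
    have : ContDiff ℝ (1 + 1) (deriv β) := h1'
    exact (contDiff_succ_iff_deriv.1 this).2.2
  have hd2 : Differentiable ℝ (deriv (deriv β)) := h1''.differentiable (by norm_num)
  have hc3 : Continuous (deriv (deriv (deriv β))) := h1''.continuous_deriv (by norm_num)
  have hz1 := WDB_dz β hd0 h4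
  have hz2 := WDB_dz _ hd1 hz1
  have hz3 := WDB_dz _ hd2 hz2
  obtain ⟨B1, hB1, hb1⟩ := WDB_bd _ hd1.continuous hz1
  obtain ⟨B2, hB2, hb2⟩ := WDB_bd _ hd2.continuous hz2
  obtain ⟨B3, hB3, hb3⟩ := WDB_bd _ hc3 hz3
  refine ⟨3 * (B1 + B2 + B3) + 1, by linarith, ?_⟩
  intro u N τ ω hu hN hτ hω
  have hN' : (0 : ℝ) < N := by exact_mod_cast hN
  have hcc : ∀ l, |(ω l : ℝ) / N| ≤ 1 := by
    intro l
    rw [abs_of_nonneg (by positivity), div_le_one hN']
    exact_mod_cast (hω l).le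
  have hp : (0 : ℝ) < 2 ^ u := by positivity
  have hW : Wd β u N τ ω = fun x => τ * WDB_S β u N ω x := rfl
  have hD1 : deriv (Wd β u N τ ω) = fun x => τ * 2 ^ u * WDB_S (deriv β) u N ω x := by rw [hW, WDB_der β hd0]
  have hD2 : d2 (Wd β u N τ ω) = fun x => τ * 2 ^ u * 2 ^ u * WDB_S (deriv (deriv β)) u N ω x := by
    unfold d2
    rw [hD1, WDB_der _ hd1]
  have hD3 : deriv (d2 (Wd β u N τ ω)) = fun x => τ * 2 ^ u * 2 ^ u * 2 ^ u * WDB_S (deriv (deriv (deriv β))) u N ω x := by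
    rw [hD2, WDB_der _ hd2]
  refine ⟨?_, ?_, ?_⟩
  · unfold Wd
    refine contDiff_const.mul (ContDiff.sum fun l _ => contDiff_const.mul (h1.comp ?_))
    exact (contDiff_const.mul contDiff_id).sub contDiff_const
  · intro x hx
    unfold Wd
    rw [Finset.sum_eq_zero, mul_zero]
    intro l hl
    rw [Finset.mem_Ico] at hl
    have hβ0 : β (2 ^ u * x - l) = 0 := by
      apply h4
      rintro ⟨h5, h6⟩
      apply hx
      obtain ⟨v, rfl⟩ : ∃ v, u = v + 3 := ⟨u - 3, by omega⟩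
      have hv : v + 3 - 3 = v := by omega
      rw [hv] at hl
      have he : (2 : ℝ) ^ (v + 3) = 8 * 2 ^ v := by ring
      rw [he] at h5 h6
      have hvp : (0 : ℝ) < 2 ^ v := by positivity
      have h7 : (2 ^ v + 2 : ℝ) ≤ l := by exact_mod_cast hl.1
      have h8 : (l : ℝ) + 3 ≤ 7 * 2 ^ v := by
        have : l + 3 ≤ 7 * 2 ^ v := by omega
        exact_mod_cast this
      constructor
      · by_contra hcon
        push Not at hcon
        nlinarith
      · by_contra hcon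
        push Not at hcon
        nlinarith
    rw [hβ0, mul_zero]
  · intro x
    refine ⟨?_, ?_, ?_, ?_⟩
    · rw [hW]
      show |τ * WDB_S β u N ω x| ≤ 3 * τ
      rw [abs_mul, abs_of_nonneg hτ]
      have := WDB_sum β 1 h4 (fun x => abs_le.2 ⟨by linarith [(h2 x).1], (h2 x).2⟩) (fun l => (ω l : ℝ) / N) hcc (2 ^ u * x)
        (Finset.Ico (2 ^ (u - 3) + 2) (7 * 2 ^ (u - 3) - 2))
      unfold WDB_S
      nlinarith
    · rw [hD1]
      show |τ * 2 ^ u * WDB_S (deriv β) u N ω x| ≤ _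
      rw [abs_mul, abs_of_nonneg (by positivity)]
      have h5 : |WDB_S (deriv β) u N ω x| ≤ 3 * B1 := WDB_sum _ B1 hz1 hb1 (fun l => (ω l : ℝ) / N) hcc (2 ^ u * x) _
      calc τ * 2 ^ u * |WDB_S (deriv β) u N ω x| ≤ τ * 2 ^ u * (3 * (B1 + B2 + B3) + 1) := mul_le_mul_of_nonneg_left (by linarith) (by positivity)
        _ = _ := by ring
    · rw [hD2]
      show |τ * 2 ^ u * 2 ^ u * WDB_S (deriv (deriv β)) u N ω x| ≤ _
      rw [abs_mul, abs_of_nonneg (by positivity)]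
      have h5 : |WDB_S (deriv (deriv β)) u N ω x| ≤ 3 * B2 := WDB_sum _ B2 hz2 hb2 (fun l => (ω l : ℝ) / N) hcc (2 ^ u * x) _
      calc τ * 2 ^ u * 2 ^ u * |WDB_S (deriv (deriv β)) u N ω x| ≤ τ * 2 ^ u * 2 ^ u * (3 * (B1 + B2 + B3) + 1) := mul_le_mul_of_nonneg_left (by linarith) (by positivity)
        _ = _ := by ring
    · rw [hD3]
      show |τ * 2 ^ u * 2 ^ u * 2 ^ u * WDB_S (deriv (deriv (deriv β))) u N ω x| ≤ _
      rw [abs_mul, abs_of_nonneg (by positivity)]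
      have h5 : |WDB_S (deriv (deriv (deriv β))) u N ω x| ≤ 3 * B3 := WDB_sum _ B3 hz3 hb3 (fun l => (ω l : ℝ) / N) hcc (2 ^ u * x) _
      calc τ * 2 ^ u * 2 ^ u * 2 ^ u * |WDB_S (deriv (deriv (deriv β))) u N ω x| ≤ τ * 2 ^ u * 2 ^ u * 2 ^ u * (3 * (B1 + B2 + B3) + 1) := mul_le_mul_of_nonneg_left (by linarith) (by positivity)
        _ = _ := by ring

end Pool.Agent.helper90.DH
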